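import Pool.Agent.Q88.MF.Stm

/-!
# Project MF: coordinates of the map (job COO)
-/

set_option autoImplicit false

noncomputable section

namespace Pool.Agent.Q53.MF

open Pool.Agent.Q88.MF

theorem rho_add_smul {d : ℕ} (x : E (d + 1)) (τ : ℝ) : rho (x + τ • e0 d) = rho x := by
  unfold rho
  congr 1
  funext i
  simp [e0]

theorem coo : S_coo := by
  intro d a x
  refine ⟨?_, ?_, ?_, ?_⟩
  · simp [F, e0]
  · intro i
    simp [F, e0]
  · exact rho_add_smul x _
  · intro τ
    refine ⟨rho_add_smul x τ, ?_⟩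
    simp [e0]

end Pool.Agent.Q53.MF
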