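import Pool.Agent.Q53.MF.Coo

/-!
# Project MF: the map is Lipschitz (job LFF)
-/

set_option autoImplicit false

noncomputable section

namespace Pool.Agent.Q53.MF

open Pool.Agent.Q88.MF
open scoped NNReal

/-- The odd extension is Lipschitz in the second variable. -/
theorem hh_sub_le (h : S_hlr) (a s r r' : ℝ) (ha : 1 < a) : |hh a s r - hh a s r'| ≤ |r - r'| := by
  unfold hh
  by_cases hs : 0 ≤ s
  · simp only [hs, if_true]
    exact h a s r r' ha hs
  · simp only [hs, if_false]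
    have := h a (-s) r r' ha (by linarith)
    calc |-H a (-s) r - -H a (-s) r'| = |H a (-s) r - H a (-s) r'| := by
          rw [← abs_neg]; congr 1; ring
      _ ≤ _ := this

theorem rho_sub_le {d : ℕ} (x y : E (d + 1)) : |rho x - rho y| ≤ ‖x - y‖ := by
  unfold rho
  refine (abs_norm_sub_norm_le _ _).trans ?_
  rw [pi_norm_le_iff_of_nonneg (norm_nonneg _)]
  intro i
  exact PiLp.norm_apply_le (x - y) i.succ

theorem coord_sub_le {d : ℕ} (x y : E (d + 1)) : |x 0 - y 0| ≤ ‖x - y‖ :=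
  PiLp.norm_apply_le (x - y) 0

theorem lff (h : S_hlr) (h1 : S_hls) : S_lff := by
  intro d a ha
  obtain ⟨L, hL1, hL⟩ := h1 a ha
  refine ⟨(L + 3).toNNReal, ?_⟩
  refine LipschitzWith.of_dist_le_mul ?_
  intro x y
  rw [Real.coe_toNNReal _ (by linarith), dist_eq_norm, dist_eq_norm]
  have e1 : F d a x - F d a y = (x - y) +
      ((hh a (x 0) (rho x) - hh a (y 0) (rho y)) - (x 0 - y 0)) • e0 d := by
    unfold F
    module
  have hn : ‖e0 d‖ = 1 := by
    unfold e0
    simp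
  have h2 : |hh a (x 0) (rho x) - hh a (y 0) (rho y)| ≤ (L + 1) * ‖x - y‖ := by
    have h3 := hL (x 0) (y 0) (rho x)
    have h4 := hh_sub_le h a (y 0) (rho x) (rho y) ha
    have h5 := rho_sub_le x y
    have h6 := coord_sub_le x y
    have h7 : L * |x 0 - y 0| ≤ L * ‖x - y‖ := mul_le_mul_of_nonneg_left h6 (by linarith)
    calc |hh a (x 0) (rho x) - hh a (y 0) (rho y)|
        ≤ |hh a (x 0) (rho x) - hh a (y 0) (rho x)| + |hh a (y 0) (rho x) - hh a (y 0) (rho y)| :=
          abs_sub_le _ _ _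
      _ ≤ (L + 1) * ‖x - y‖ := by linarith
  rw [e1]
  calc ‖(x - y) + ((hh a (x 0) (rho x) - hh a (y 0) (rho y)) - (x 0 - y 0)) • e0 d‖
      ≤ ‖x - y‖ + ‖((hh a (x 0) (rho x) - hh a (y 0) (rho y)) - (x 0 - y 0)) • e0 d‖ :=
        norm_add_le _ _
    _ = ‖x - y‖ + |(hh a (x 0) (rho x) - hh a (y 0) (rho y)) - (x 0 - y 0)| := by
        rw [norm_smul, hn, mul_one, Real.norm_eq_abs]
    _ ≤ ‖x - y‖ + (|hh a (x 0) (rho x) - hh a (y 0) (rho y)| + |x 0 - y 0|) := by
        gcongr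
        exact abs_sub _ _
    _ ≤ (L + 3) * ‖x - y‖ := by
        have := coord_sub_le x y
        linarith

end Pool.Agent.Q53.MF
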